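import Pool.Agent.H70.EI.Targets

/-!
# EI module DC2: the condition of an index depends on finitely many strings
-/

set_option autoImplicit false

namespace Pool.Agent.H85.EI.DC2

open Pool.Agent.H6.NB Pool.Agent.H70.OQ Pool.Agent.H70.EH Pool.Agent.H70.EI

theorem dc2 (h1 : T_LOA) (h2 : Pool.Agent.H6.NB.T_COD) : T_DC2 := by
  intro V W ρ i
  rcases i with p | a
  · refine ⟨(V p.1).time p.2.length + (2 * (hm V p).length +
      2 * (2 * (hm V p).length + qs (hm V p)) + 4), ?_⟩
    intro O O' h
    have hlang : p.2 ∈ (V p.1).lang O ↔ p.2 ∈ (V p.1).lang O' :=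
      h1 V W ρ (.inl p) ((V p.1).time p.2.length) le_rfl O O' fun w hw => h w (by omega)
    have hcpx : (fun u : Fin (2 * (hm V p).length) → Bool => cpx O (hm V p) (List.ofFn u)) =
        fun u => cpx O' (hm V p) (List.ofFn u) := by
      funext u v
      unfold cpx
      apply h
      unfold pos
      rw [h2.2, List.length_append, List.length_ofFn, List.length_ofFn]
      have hb : v.1.toNat ≤ 1 := Bool.toNat_le _
      omega
    have hdec : @decide (p.2 ∈ (V p.1).lang O) (Classical.propDecidable _) =
        @decide (p.2 ∈ (V p.1).lang O') (Classical.propDecidable _) := by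
      classical
      by_cases hx : p.2 ∈ (V p.1).lang O
      · exact (decide_eq_true hx).trans (decide_eq_true (hlang.1 hx)).symm
      · exact (decide_eq_false hx).trans (decide_eq_false fun hx' => hx (hlang.2 hx')).symm
    show Says (qs (hm V p)) (@decide (p.2 ∈ (V p.1).lang O) (Classical.propDecidable _))
        (fun u : Fin (2 * (hm V p).length) → Bool => cpx O (hm V p) (List.ofFn u)) ↔
      Says (qs (hm V p)) (@decide (p.2 ∈ (V p.1).lang O') (Classical.propDecidable _))
        fun u : Fin (2 * (hm V p).length) → Bool => cpx O' (hm V p) (List.ofFn u)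
    rw [hcpx, hdec]
  · refine ⟨(2 ^ ρ a) ^ (W a).2.c + (W a).2.c + 2 ^ ((W a).1 + 3) * 2 ^ ρ a + 1, ?_⟩
    intro O O' h
    exact h1 V W ρ (.inr a) _ le_rfl O O' h

end Pool.Agent.H85.EI.DC2
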